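import Pool.Agent.helper52.FS.SpecP

/-!
# Row fs:FUP (project FS, MP_07c750): the fractal uncertainty principle from the iteration FIT
-/

set_option autoImplicit false

open MeasureTheory Set

namespace Pool.Agent.FS

theorem FUP_proof (hF : FIT_stmt) : FUP_stmt := by
  intro c R0 Q hc hc1 hR0 hQ
  obtain ⟨θ, R1, H, hθ0, hθ1, hR1, hH, hmain⟩ := hF c hc hc1
  have hHr : (1 : ℝ) < (H : ℝ) := by exact_mod_cast (by omega : 1 < H)
  obtain ⟨t0, ht0⟩ := pow_unbounded_of_one_lt R0 hHr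
  obtain ⟨T, hT⟩ := exists_pow_lt_of_lt_one (show (0 : ℝ) < Q / 4 by positivity) hθ1
  have hHp : ∀ t : ℕ, (0 : ℝ) < (H : ℝ) ^ t := fun t => by positivity
  have hR0p : (0 : ℝ) < R0 := by linarith
  refine ⟨max 1 (max (R0 * (H : ℝ) ^ (t0 + T)) (R1 * (H : ℝ) ^ (t0 + T))), le_max_left _ _, ?_⟩
  intro N Y J a hN hY h1 h2
  have hN1 : 1 ≤ N := le_trans (le_max_left _ _) hN
  have hN2 : R0 * (H : ℝ) ^ (t0 + T) ≤ N :=
    le_trans (le_trans (le_max_left _ _) (le_max_right _ _)) hN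
  have hN3 : R1 * (H : ℝ) ^ (t0 + T) ≤ N :=
    le_trans (le_trans (le_max_right _ _) (le_max_right _ _)) hN
  have hNp : (0 : ℝ) < N := by linarith
  have key := hmain t0 T Y J a hY ?_ ?_
  · refine le_trans key ?_
    have hsum : (0 : ℝ) ≤ ∑ j ∈ J, ‖a j‖ ^ 2 := Finset.sum_nonneg (fun j _ => by positivity)
    exact mul_le_mul_of_nonneg_right (by linarith) hsum
  · intro t _ ht v
    have hcast : ((H ^ t : ℕ) : ℝ) = (H : ℝ) ^ t := by push_cast; rfl
    rw [hcast]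
    have hpt := hHp t
    have hle : (H : ℝ) ^ t ≤ (H : ℝ) ^ (t0 + T) := pow_le_pow_right₀ hHr.le ht.le
    have ha : R0 / N ≤ 1 / (H : ℝ) ^ t := by
      rw [div_le_div_iff₀ hNp hpt]
      have : R0 * (H : ℝ) ^ t ≤ R0 * (H : ℝ) ^ (t0 + T) := mul_le_mul_of_nonneg_left hle hR0p.le
      linarith
    have hb : 1 / (H : ℝ) ^ t ≤ 1 := by
      rw [div_le_one hpt]
      exact one_le_pow₀ hHr.le
    obtain ⟨x, hx, hd⟩ := h1 (1 / (H : ℝ) ^ t) ha hb v
    refine ⟨x, hx, ?_⟩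
    have hc' : c * (1 / (H : ℝ) ^ t) = c / (H : ℝ) ^ t := by ring
    rw [hc'] at hd
    exact hd
  · intro R hRa hRb ξ
    exact h2 R (by linarith) (by linarith) ξ

end Pool.Agent.FS
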